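import Pool.Agent.X13.AS.Low2
import Pool.Agent.X13.AS.Ex

/-!
# MP_65fb70_co: the `σ`-Helly number of an aligned sum
-/

namespace Pool.Agent.Results.MP_65fb70_co.AlignedSumBounds

open Pool.Agent.X13.AS

theorem result :
    ∀ (σ : ℕ), 1 ≤ σ → ∀ a b : ℕ∞,
      -- one of the numbers is `0`
      (a = 0 → Vals σ a b = {b}) ∧ (b = 0 → Vals σ a b = {a}) ∧
      -- the best upper bound
      (a < σ → b < σ → IsGreatest (Vals σ a b) (a + b)) ∧
      (1 ≤ a → 1 ≤ b → (σ ≤ a ∨ σ ≤ b) → IsGreatest (Vals σ a b) ⊤) ∧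
      -- the best lower bound if one of the numbers is below `σ`
      (a < σ ∨ b < σ → IsLeast (Vals σ a b) (max a b)) ∧
      -- lower bounds if both numbers are at least `σ`
      (σ ≤ a → σ ≤ b →
        min (min a b) (min (σ + 2) (2 * σ)) ∈ lowerBounds (Vals σ a b) ∧
        (∃ h ∈ Vals σ a b, h ≤ min (min a b) (2 * σ)) ∧
        (min a b ≤ σ + 2 ∨ σ ≤ 2 → IsLeast (Vals σ a b) (min (min a b) (2 * σ)))) := by
  intro σ hσ a b
  -- zero
  have hzero : ∀ a b : ℕ∞, a = 0 → Vals σ a b = {b} := by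
    intro a b h0
    apply Set.eq_singleton_iff_unique_mem.2
    refine ⟨val_b' hσ (by rw [h0]; exact zero_le), ?_⟩
    rintro h ⟨U, X₁, C₁, X₂, C₂, h1, h2, ha, hb, rfl⟩
    apply le_antisymm
    · rw [← hb]
      exact upper_zero hσ h1 h2 (ha.trans h0)
    · rw [← hb]
      exact (le_max_right _ _).trans (lower_small h1 h2 (Or.inl (by
        rw [ha, h0]; exact_mod_cast hσ)))
  have hleast : ∀ a b : ℕ∞, a < σ ∨ b < σ → IsLeast (Vals σ a b) (max a b) := by
    intro a b h
    constructor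
    · rcases le_total a b with g | g
      · rw [max_eq_right g]; exact val_b' hσ g
      · rw [max_eq_left g, vals_comm]; exact val_b' hσ g
    · rintro h' ⟨U, X₁, C₁, X₂, C₂, h1, h2, ha, hb, rfl⟩
      rw [← ha, ← hb]
      exact lower_small h1 h2 (by rw [ha, hb]; exact h)
  have hlow : min (min a b) (min ((σ:ℕ∞) + 2) (2 * σ)) ∈ lowerBounds (Vals σ a b) := by
    rintro h' ⟨U, X₁, C₁, X₂, C₂, h1, h2, ha, hb, rfl⟩
    rcases Nat.lt_or_ge 1 σ with hs | hs
    · refine le_trans ?_ (lower_two hs h1 h2)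
      rw [ha, hb]
      exact min_le_min_left _ (min_le_left _ _)
    · have : σ = 1 := le_antisymm hs hσ
      subst this
      refine le_trans ?_ (lower_general le_rfl h1 h2)
      rw [ha, hb]
      refine min_le_min_left _ ((min_le_right _ _).trans ?_)
      norm_num
  have hmin : σ ≤ a → σ ≤ b → min a b ∈ Vals σ a b := by
    intro ha hb
    rcases le_total a b with g | g
    · rw [min_eq_left g, vals_comm]; exact val_b hσ ha
    · rw [min_eq_right g]; exact val_b hσ hb
  have hex : σ ≤ a → σ ≤ b → ∃ h ∈ Vals σ a b, h ≤ min (min a b) (2 * σ) := by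
    intro ha hb
    rcases le_total (min a b) (2 * σ) with g | g
    · rw [min_eq_left g]; exact ⟨_, hmin ha hb, le_rfl⟩
    · rw [min_eq_right g]; exact val_two hσ ha hb
  refine ⟨hzero a b, ?_, ?_, ?_, hleast a b, ?_⟩
  · intro h; rw [vals_comm]; exact hzero b a h
  · intro ha hb
    refine ⟨val_add hσ a b ha hb, ?_⟩
    rintro h' ⟨U, X₁, C₁, X₂, C₂, h1, h2, ha', hb', rfl⟩
    rw [← ha', ← hb']
    exact upper_small h1 h2 (by rw [ha']; exact ha) (by rw [hb']; exact hb)
  · intro ha1 hb1 h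
    refine ⟨?_, fun x _ => le_top⟩
    rcases h with h | h
    · rw [vals_comm]; exact val_top hσ hb1 h
    · exact val_top hσ ha1 h
  · intro ha hb
    refine ⟨hlow, hex ha hb, ?_⟩
    intro hc
    -- under the side condition the two bounds agree
    have heq : min (min a b) (min ((σ:ℕ∞) + 2) (2 * σ)) = min (min a b) (2 * σ) := by
      rcases Nat.lt_or_ge 2 σ with hs | hs
      · have hc' : min a b ≤ (σ:ℕ∞) + 2 := by
          rcases hc with g | g
          · exact g
          · omega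
        have h2 : (σ:ℕ∞) + 2 ≤ 2 * σ := by exact_mod_cast (by omega : σ + 2 ≤ 2 * σ)
        rw [min_eq_left h2, min_eq_left hc', min_eq_left (hc'.trans h2)]
      · have h2 : 2 * (σ:ℕ∞) ≤ σ + 2 := by exact_mod_cast (by omega : 2 * σ ≤ σ + 2)
        rw [min_eq_right h2]
    rw [heq] at hlow
    refine ⟨?_, hlow⟩
    obtain ⟨h, hV, hle⟩ := hex ha hb
    have := hlow hV
    rw [le_antisymm this hle]
    exact hV

end Pool.Agent.Results.MP_65fb70_co.AlignedSumBounds
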